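import Mathlib

/-! Project SX (helper969), job BLK, part 3: duality and the inequality of Hoelder. -/

set_option autoImplicit false

open MeasureTheory Set
open Complex

namespace Pool.Agent.Y780.SX

/-- Hoelder's inequality with three functions -/
theorem holder3 {μ : Measure ℝ} {f g : ℝ → ℝ} {M : ℕ} (hM : 1 ≤ M) (hf0 : ∀ t, 0 ≤ f t) (hg0 : ∀ t, 0 ≤ g t)
    (hf : Integrable f μ) (hf2 : Integrable (fun t => f t ^ 2) μ) (hg : Integrable (fun t => g t ^ (2 * M)) μ)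
    (hfg : Integrable (fun t => f t * g t) μ) {A1 A2 A3 : ℝ}
    (h1 : ∫ t, f t ∂μ ≤ A1) (h2 : ∫ t, f t ^ 2 ∂μ ≤ A2) (h3 : ∫ t, g t ^ (2 * M) ∂μ ≤ A3) :
    ∫ t, f t * g t ∂μ ≤ A1 ^ (1 - 1 / (M : ℝ)) * A2 ^ (1 / (2 * (M : ℝ))) * A3 ^ (1 / (2 * (M : ℝ))) := by
  have hM0 : (0 : ℝ) < M := by exact_mod_cast hM
  have hM1 : (1 : ℝ) ≤ M := by exact_mod_cast hM
  have hA1 : 0 ≤ A1 := (integral_nonneg hf0).trans h1
  have hA2 : 0 ≤ A2 := (integral_nonneg fun t => by positivity).trans h2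
  have hA3 : 0 ≤ A3 := (integral_nonneg fun t => pow_nonneg (hg0 t) _).trans h3
  have p0 : 0 ≤ 1 - 1 / (M : ℝ) := by
    rw [sub_nonneg, div_le_one hM0]
    exact hM1
  have p1 : 0 ≤ 1 / (2 * (M : ℝ)) := by positivity
  let F : Fin 3 → ℝ → ENNReal := ![fun t => ENNReal.ofReal (f t), fun t => ENNReal.ofReal (f t ^ 2),
    fun t => ENNReal.ofReal (g t ^ (2 * M))]
  let P : Fin 3 → ℝ := ![1 - 1 / (M : ℝ), 1 / (2 * (M : ℝ)), 1 / (2 * (M : ℝ))]
  have key := ENNReal.lintegral_prod_norm_pow_le (μ := μ) (Finset.univ : Finset (Fin 3)) (f := F) (p := P) ?_ ?_ ?_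
  · simp only [F, P, Fin.prod_univ_three, Matrix.cons_val_zero, Matrix.cons_val_one, Matrix.cons_val] at key
    have e1 : ∀ t, ENNReal.ofReal (f t) ^ (1 - 1 / (M : ℝ)) * ENNReal.ofReal (f t ^ 2) ^ (1 / (2 * (M : ℝ))) *
        ENNReal.ofReal (g t ^ (2 * M)) ^ (1 / (2 * (M : ℝ))) = ENNReal.ofReal (f t * g t) := by
      intro t
      have hf2' : 0 ≤ f t ^ 2 := by positivity
      have hg2' : 0 ≤ g t ^ (2 * M) := pow_nonneg (hg0 t) _
      rw [ENNReal.ofReal_rpow_of_nonneg (hf0 t) p0, ENNReal.ofReal_rpow_of_nonneg hf2' p1,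
        ENNReal.ofReal_rpow_of_nonneg hg2' p1, ← ENNReal.ofReal_mul (Real.rpow_nonneg (hf0 t) _),
        ← ENNReal.ofReal_mul (mul_nonneg (Real.rpow_nonneg (hf0 t) _) (Real.rpow_nonneg hf2' _))]
      congr 1
      have a1 : (f t ^ 2) ^ (1 / (2 * (M : ℝ))) = f t ^ (1 / (M : ℝ)) := by
        rw [← Real.rpow_natCast, ← Real.rpow_mul (hf0 t)]
        congr 1
        push_cast
        field_simp
      have a2 : (g t ^ (2 * M)) ^ (1 / (2 * (M : ℝ))) = g t := by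
        rw [← Real.rpow_natCast, ← Real.rpow_mul (hg0 t)]
        have : ((2 * M : ℕ) : ℝ) * (1 / (2 * (M : ℝ))) = 1 := by
          push_cast
          field_simp
        rw [this, Real.rpow_one]
      rw [a1, a2, ← Real.rpow_add_of_nonneg (hf0 t) p0 (by positivity)]
      have : 1 - 1 / (M : ℝ) + 1 / (M : ℝ) = 1 := by ring
      rw [this, Real.rpow_one]
    rw [lintegral_congr e1] at key
    rw [← ofReal_integral_eq_lintegral_ofReal hfg (Filter.Eventually.of_forall fun t => mul_nonneg (hf0 t) (hg0 t)),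
      ← ofReal_integral_eq_lintegral_ofReal hf (Filter.Eventually.of_forall hf0),
      ← ofReal_integral_eq_lintegral_ofReal hf2 (Filter.Eventually.of_forall fun t => by positivity),
      ← ofReal_integral_eq_lintegral_ofReal hg (Filter.Eventually.of_forall fun t => pow_nonneg (hg0 t) _)] at key
    have key2 : ENNReal.ofReal (∫ t, f t * g t ∂μ) ≤ ENNReal.ofReal (A1 ^ (1 - 1 / (M : ℝ)) *
        A2 ^ (1 / (2 * (M : ℝ))) * A3 ^ (1 / (2 * (M : ℝ)))) := by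
      refine key.trans ?_
      rw [ENNReal.ofReal_mul (by positivity), ENNReal.ofReal_mul (by positivity),
        ← ENNReal.ofReal_rpow_of_nonneg hA1 p0, ← ENNReal.ofReal_rpow_of_nonneg hA2 p1,
        ← ENNReal.ofReal_rpow_of_nonneg hA3 p1]
      gcongr
    exact (ENNReal.ofReal_le_ofReal_iff (by positivity)).1 key2
  · intro i _
    fin_cases i
    · exact hf.aestronglyMeasurable.aemeasurable.ennreal_ofReal
    · exact hf2.aestronglyMeasurable.aemeasurable.ennreal_ofReal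
    · exact hg.aestronglyMeasurable.aemeasurable.ennreal_ofReal
  · simp only [P, Fin.sum_univ_three, Matrix.cons_val_zero, Matrix.cons_val_one, Matrix.cons_val]
    field_simp
    ring
  · intro i _
    fin_cases i
    · exact p0
    · exact p1
    · exact p1

/-- duality -/
theorem dual {ι : Type} (S : Finset ι) (L : ι → ℝ) {T M' : ℝ} {M : ℕ} (hM : 1 ≤ M) (φ : ℝ → ℂ)
    (hφ : IntegrableOn φ (Icc 0 T)) (hφ2 : IntegrableOn (fun t => ‖φ t‖ ^ 2) (Icc 0 T)) {I1 I2 : ℝ}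
    (h1 : ∫ t in Icc 0 T, ‖φ t‖ ≤ I1) (h2 : ∫ t in Icc 0 T, ‖φ t‖ ^ 2 ≤ I2)
    (h3 : ∀ c : ι → ℂ, (∀ q ∈ S, ‖c q‖ ≤ I1) →
      ∫ t in Icc 0 T, ‖∑ q ∈ S, c q * cexp (I * ((t * L q : ℝ) : ℂ))‖ ^ (2 * M) ≤ I1 ^ (2 * M) * M') :
    ∑ q ∈ S, ‖∫ t in Icc 0 T, φ t * cexp (I * ((t * L q : ℝ) : ℂ))‖ ^ 2 ≤
      I1 ^ (1 - 1 / (M : ℝ)) * I2 ^ (1 / (2 * (M : ℝ))) * (I1 ^ (2 * M) * M') ^ (1 / (2 * (M : ℝ))) := by
  set F : ι → ℂ := fun q => ∫ t in Icc 0 T, φ t * cexp (I * ((t * L q : ℝ) : ℂ)) with hF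
  have hE : ∀ q, Continuous fun t : ℝ => cexp (I * ((t * L q : ℝ) : ℂ)) := by
    intro q
    fun_prop
  have hEn : ∀ (t : ℝ) q, ‖cexp (I * ((t * L q : ℝ) : ℂ))‖ = 1 := by
    intro t q
    rw [mul_comm]
    exact Complex.norm_exp_ofReal_mul_I _
  have hFb : ∀ q, ‖F q‖ ≤ I1 := by
    intro q
    refine (norm_integral_le_integral_norm _).trans (le_trans (le_of_eq ?_) h1)
    refine integral_congr_ae (Filter.Eventually.of_forall fun t => ?_)
    simp only [norm_mul, hEn, mul_one]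
  set c : ι → ℂ := fun q => (starRingEnd ℂ) (F q) with hc
  have hcb : ∀ q ∈ S, ‖c q‖ ≤ I1 := by
    intro q _
    rw [hc]
    simp only [RCLike.norm_conj]
    exact hFb q
  set A : ℝ → ℂ := fun t => ∑ q ∈ S, c q * cexp (I * ((t * L q : ℝ) : ℂ)) with hA
  have hAc : Continuous A := by
    rw [hA]
    exact continuous_finset_sum _ fun q _ => continuous_const.mul (hE q)
  have hint : ∀ q, IntegrableOn (fun t => φ t * cexp (I * ((t * L q : ℝ) : ℂ))) (Icc 0 T) := fun q =>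
    hφ.mul_continuousOn (hE q).continuousOn isCompact_Icc
  have hφA : IntegrableOn (fun t => φ t * A t) (Icc 0 T) :=
    hφ.mul_continuousOn hAc.continuousOn isCompact_Icc
  have e1 : ((∑ q ∈ S, ‖F q‖ ^ 2 : ℝ) : ℂ) = ∫ t in Icc 0 T, φ t * A t := by
    have e2 : ∀ t, φ t * A t = ∑ q ∈ S, c q * (φ t * cexp (I * ((t * L q : ℝ) : ℂ))) := by
      intro t
      rw [hA]
      simp only
      rw [Finset.mul_sum]
      exact Finset.sum_congr rfl fun q _ => by ring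
    simp_rw [e2]
    rw [integral_finsetSum _ fun q _ => (hint q).const_mul _, Complex.ofReal_sum]
    refine Finset.sum_congr rfl fun q _ => ?_
    rw [integral_const_mul, Complex.ofReal_pow]
    have : c q * ∫ t in Icc 0 T, φ t * cexp (I * ((t * L q : ℝ) : ℂ)) = (starRingEnd ℂ) (F q) * F q := rfl
    rw [this, mul_comm, Complex.mul_conj']
  have hnn : 0 ≤ ∑ q ∈ S, ‖F q‖ ^ 2 := Finset.sum_nonneg fun q _ => by positivity
  have e3 : ∑ q ∈ S, ‖F q‖ ^ 2 ≤ ∫ t in Icc 0 T, ‖φ t‖ * ‖A t‖ := by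
    calc ∑ q ∈ S, ‖F q‖ ^ 2 = ‖((∑ q ∈ S, ‖F q‖ ^ 2 : ℝ) : ℂ)‖ := by
          rw [Complex.norm_real, Real.norm_of_nonneg hnn]
      _ ≤ ∫ t in Icc 0 T, ‖φ t * A t‖ := by
          rw [e1]
          exact norm_integral_le_integral_norm _
      _ = ∫ t in Icc 0 T, ‖φ t‖ * ‖A t‖ := by
          refine integral_congr_ae (Filter.Eventually.of_forall fun t => ?_)
          simp only [norm_mul]
  refine e3.trans ?_
  refine holder3 hM (fun t => norm_nonneg _) (fun t => norm_nonneg _) hφ.norm hφ2 ?_ ?_ h1 h2 (h3 c hcb)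
  · exact (hAc.norm.pow _).continuousOn.integrableOn_compact isCompact_Icc
  · refine hφA.norm.congr (Filter.Eventually.of_forall fun t => ?_)
    simp only [norm_mul]

end Pool.Agent.Y780.SX
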