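import Pool.Agent.Y780.SX.Blk1
import Pool.Agent.Y780.SX.Blk2
import Pool.Agent.Y969.SM.Stm

/-! Project SX (helper969), job BLK: a Halasz-Montgomery type inequality for blocks of products of fractions. -/

set_option autoImplicit false

open MeasureTheory Set
open Complex

namespace Pool.Agent.Y780.SX

open Pool.Agent.Y969.GP (ht lam FR)
open Pool.Agent.Y969.SM (Lam S_BLK)

theorem t_BLK : S_BLK := by
  classical
  intro n m ε hm hε
  obtain ⟨C1, hC1, hls⟩ := ls1
  set M : ℕ := 2 * m with hMdef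
  have hM : 1 ≤ M := by omega
  have hM0 : (0 : ℝ) < M := by exact_mod_cast hM
  set K : ℕ := 4 * n * M with hK
  set δ : ℝ := (ε / 2) / (K + 1) with hδdef
  have hδ : 0 < δ := by positivity
  obtain ⟨C2, hC2, hdiv⟩ := Pool.Agent.H510R2.divisor_bound δ hδ
  set C4 : ℝ := C1 * 9 * (1 + 2 / ε) * C2 ^ K with hC4
  have hC4p : 0 < C4 := by positivity
  refine ⟨C4 ^ (1 / (2 * (M : ℝ))), by positivity, ?_⟩
  intro T L I1 I2 φ S hT hL hTL hφ hφ2 h1 h2 hS hSL
  have hL0 : 0 < L := by linarith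
  set Y : ℝ := L ^ M with hYdef
  have hY : 1 ≤ Y := one_le_pow₀ hL
  have hY0 : 0 < Y := by linarith
  set X : ℕ := ⌊Y⌋₊ with hX
  have hX1 : 1 ≤ X := Nat.le_floor (by simpa using hY)
  have hX1r : (1 : ℝ) ≤ X := by exact_mod_cast hX1
  have hX0r : (0 : ℝ) < X := by linarith
  have hXY : (X : ℝ) ≤ Y := Nat.floor_le hY0.le
  have hI1 : 0 ≤ I1 := (integral_nonneg fun t => norm_nonneg _).trans h1
  have hI2 : 0 ≤ I2 := (integral_nonneg fun t => by positivity).trans h2
  set D : ℕ := ⌊C2 * (X : ℝ) ^ δ⌋₊ with hDdef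
  have hDr : (D : ℝ) ≤ C2 * (X : ℝ) ^ δ := Nat.floor_le (by positivity)
  have hD : ∀ P : ℕ, 1 ≤ P → P ≤ X → P.divisors.card ≤ D := by
    intro P h1 h2
    apply Nat.le_floor
    refine (hdiv P h1).trans ?_
    have h3 : (P : ℝ) ≤ X := by exact_mod_cast h2
    exact mul_le_mul_of_nonneg_left (Real.rpow_le_rpow (Nat.cast_nonneg _) h3 hδ.le) hC2.le
  have hpos : ∀ q ∈ S, ∀ j, 1 ≤ (q j).1 ∧ 1 ≤ (q j).2 := fun q hq j => ⟨(hS q hq j).1, (hS q hq j).2.1⟩
  have hQ : ∀ Q ∈ Fintype.piFinset (fun _ : Fin M => S), dn Q * nu Q ≤ X := by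
    intro Q hQ
    apply Nat.le_floor
    have e1 : ((dn Q * nu Q : ℕ) : ℝ) = ∏ i, ∏ j, ht (Q i j) := by
      unfold dn nu ht
      push_cast
      rw [← Finset.prod_mul_distrib]
      refine Finset.prod_congr rfl fun i _ => ?_
      rw [← Finset.prod_mul_distrib]
    rw [e1]
    calc ∏ i, ∏ j, ht (Q i j) ≤ ∏ _i : Fin M, L := by
          refine Finset.prod_le_prod (fun i _ => Finset.prod_nonneg fun j _ => ?_)
            fun i _ => hSL _ ((Fintype.mem_piFinset.1 hQ) i)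
          unfold ht
          positivity
      _ = Y := by rw [Finset.prod_const, Finset.card_univ, Fintype.card_fin]
  set R : ℕ := X * (((D * D) ^ n) ^ M * ((D * D) ^ n) ^ M) with hR
  set M' : ℝ := C1 * ((8 * T + X) * (1 + Real.log X)) * (R : ℝ) with hM'
  have hlog : 0 ≤ Real.log X := Real.log_nonneg hX1r
  have hM'0 : 0 ≤ M' := by positivity
  have key := dual S Lam (T := 8 * T) (M' := M') hM φ hφ hφ2 h1 h2 ?_
  · refine key.trans ?_
    -- the bound for `M'`
    have b1 : 8 * T + X ≤ 9 * Y := by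
      have : T ≤ Y := hTL
      linarith
    have b2 : 1 + Real.log X ≤ (1 + 2 / ε) * Y ^ (ε / 2) := by
      have c1 := Real.log_le_rpow_div hX0r.le (half_pos hε)
      have c2 : (X : ℝ) ^ (ε / 2) ≤ Y ^ (ε / 2) := Real.rpow_le_rpow hX0r.le hXY (half_pos hε).le
      have c3 : 1 ≤ Y ^ (ε / 2) := Real.one_le_rpow hY (half_pos hε).le
      have c4 : (X : ℝ) ^ (ε / 2) / (ε / 2) = 2 / ε * (X : ℝ) ^ (ε / 2) := by
        field_simp
      rw [c4] at c1
      have c5 : 2 / ε * (X : ℝ) ^ (ε / 2) ≤ 2 / ε * Y ^ (ε / 2) := mul_le_mul_of_nonneg_left c2 (by positivity)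
      nlinarith
    have b3 : (R : ℝ) ≤ Y * (C2 ^ K * Y ^ (ε / 2)) := by
      have c1 : R = X * D ^ K := by
        rw [hR, hK]
        congr 1
        rw [← pow_mul, ← pow_add, ← pow_two, ← pow_mul]
        congr 1
        ring
      rw [c1]
      push_cast
      have c2 : (D : ℝ) ^ K ≤ C2 ^ K * Y ^ (ε / 2) := by
        calc (D : ℝ) ^ K ≤ (C2 * (X : ℝ) ^ δ) ^ K := pow_le_pow_left₀ (Nat.cast_nonneg _) hDr K
          _ = C2 ^ K * ((X : ℝ) ^ δ) ^ K := mul_pow _ _ _
          _ ≤ C2 ^ K * Y ^ (ε / 2) := by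
              refine mul_le_mul_of_nonneg_left ?_ (by positivity)
              rw [← Real.rpow_natCast ((X : ℝ) ^ δ) K, ← Real.rpow_mul hX0r.le]
              have c3 : δ * (K : ℝ) ≤ ε / 2 := by
                rw [hδdef, div_mul_eq_mul_div, div_le_iff₀ (by positivity)]
                have : (0 : ℝ) < ε / 2 := half_pos hε
                nlinarith
              calc (X : ℝ) ^ (δ * (K : ℝ)) ≤ (X : ℝ) ^ (ε / 2) := Real.rpow_le_rpow_of_exponent_le hX1r c3
                _ ≤ Y ^ (ε / 2) := Real.rpow_le_rpow hX0r.le hXY (half_pos hε).le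
      exact mul_le_mul hXY c2 (by positivity) hY0.le
    have b4 : M' ≤ C4 * Y ^ (2 + ε) := by
      have c1 : Y ^ (2 + ε) = Y * Y * (Y ^ (ε / 2) * Y ^ (ε / 2)) := by
        rw [← Real.rpow_add hY0]
        have : Y * Y = Y ^ (2 : ℝ) := by
          rw [Real.rpow_two, pow_two]
        rw [this, ← Real.rpow_add hY0]
        congr 1
        ring
      calc M' = C1 * ((8 * T + X) * (1 + Real.log X)) * (R : ℝ) := rfl
        _ ≤ C1 * ((9 * Y) * ((1 + 2 / ε) * Y ^ (ε / 2))) * (Y * (C2 ^ K * Y ^ (ε / 2))) := by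
            gcongr
        _ = C4 * Y ^ (2 + ε) := by
            rw [c1, hC4]
            ring
    have p1 : 0 ≤ 1 / (2 * (M : ℝ)) := by positivity
    have d1 : (I1 ^ (2 * M) * M') ^ (1 / (2 * (M : ℝ))) ≤ I1 * (C4 ^ (1 / (2 * (M : ℝ))) * L ^ (1 + ε)) := by
      rw [Real.mul_rpow (by positivity) hM'0]
      have e1 : (I1 ^ (2 * M)) ^ (1 / (2 * (M : ℝ))) = I1 := by
        rw [← Real.rpow_natCast, ← Real.rpow_mul hI1]
        have : ((2 * M : ℕ) : ℝ) * (1 / (2 * (M : ℝ))) = 1 := by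
          push_cast
          field_simp
        rw [this, Real.rpow_one]
      rw [e1]
      refine mul_le_mul_of_nonneg_left ?_ hI1
      calc M' ^ (1 / (2 * (M : ℝ))) ≤ (C4 * Y ^ (2 + ε)) ^ (1 / (2 * (M : ℝ))) := Real.rpow_le_rpow hM'0 b4 p1
        _ = C4 ^ (1 / (2 * (M : ℝ))) * (Y ^ (2 + ε)) ^ (1 / (2 * (M : ℝ))) :=
            Real.mul_rpow hC4p.le (by positivity)
        _ ≤ C4 ^ (1 / (2 * (M : ℝ))) * L ^ (1 + ε) := by
            refine mul_le_mul_of_nonneg_left ?_ (by positivity)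
            rw [hYdef, ← Real.rpow_natCast, ← Real.rpow_mul hL0.le, ← Real.rpow_mul hL0.le]
            apply Real.rpow_le_rpow_of_exponent_le hL
            have : (M : ℝ) * (2 + ε) * (1 / (2 * (M : ℝ))) = 1 + ε / 2 := by
              field_simp
            rw [this]
            linarith
    calc I1 ^ (1 - 1 / (M : ℝ)) * I2 ^ (1 / (2 * (M : ℝ))) * (I1 ^ (2 * M) * M') ^ (1 / (2 * (M : ℝ)))
        ≤ I1 ^ (1 - 1 / (M : ℝ)) * I2 ^ (1 / (2 * (M : ℝ))) * (I1 * (C4 ^ (1 / (2 * (M : ℝ))) * L ^ (1 + ε))) := by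
          refine mul_le_mul_of_nonneg_left d1 (by positivity)
      _ = C4 ^ (1 / (2 * (M : ℝ))) * (I1 ^ (2 - 1 / (2 * (m : ℝ))) * I2 ^ (1 / (4 * (m : ℝ))) * L ^ (1 + ε)) := by
          have hm0 : (0 : ℝ) < m := by exact_mod_cast hm
          have hMm : (M : ℝ) = 2 * (m : ℝ) := by
            rw [hMdef]
            push_cast
            ring
          have f1 : I1 ^ (1 - 1 / (M : ℝ)) * I1 = I1 ^ (2 - 1 / (2 * (m : ℝ))) := by
            have p0 : 0 ≤ 1 - 1 / (M : ℝ) := by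
              rw [sub_nonneg, div_le_one hM0]
              exact_mod_cast hM
            conv_lhs => rw [← Real.rpow_one I1, ← Real.rpow_mul hI1, one_mul]
            rw [← Real.rpow_add_of_nonneg hI1 p0 zero_le_one, hMm]
            congr 1
            ring
          have f2 : (1 : ℝ) / (2 * (M : ℝ)) = 1 / (4 * (m : ℝ)) := by
            rw [hMm]
            ring_nf
          rw [← f1, ← f2]
          ring
  · intro c hc
    set B : ℕ × ℕ → ℂ := fun p =>
      ∑ Q ∈ (Fintype.piFinset (fun _ : Fin M => S)).filter (fun Q => red Q = p), ∏ i, c (Q i) with hB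
    have e : ∀ t : ℝ, ‖∑ q ∈ S, c q * cexp (I * ((t * Lam q : ℝ) : ℂ))‖ ^ (2 * M) =
        ‖∑ p ∈ FR X, B p * cexp (I * ((t * lam p : ℝ) : ℂ))‖ ^ 2 := by
      intro t
      have e1 := expand (M := M) S hpos X hQ c t
      rw [mul_comm 2 M, pow_mul, ← norm_pow]
      congr 2
    simp_rw [e]
    refine (hls X (8 * T) B hX1 (by linarith)).trans ?_
    calc C1 * ((8 * T + X) * (1 + Real.log X)) * ∑ p ∈ FR X, ‖B p‖ ^ 2
        ≤ C1 * ((8 * T + X) * (1 + Real.log X)) * (I1 ^ (2 * M) * (R : ℝ)) := by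
          refine mul_le_mul_of_nonneg_left ?_ (by positivity)
          exact coeff_sq S hpos X D hQ hD c I1 hI1 hc
      _ = I1 ^ (2 * M) * M' := by
          rw [hM']
          ring

end Pool.Agent.Y780.SX
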