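import Mathlib
import Pool.Agent.Y969.GP.Def
import Pool.Agent.Y379.GP.Sp
import Pool.Agent.Y125.GP.LSW

/-! Project SX (helper969), job BLK, part 1: a large sieve inequality for reduced fractions. -/

set_option autoImplicit false

open MeasureTheory Set
open Complex hiding mk

namespace Pool.Agent.Y780.SX

open Pool.Agent.Y969.GP

theorem ls1 : ∃ C : ℝ, 0 < C ∧ ∀ (X : ℕ) (T : ℝ) (B : ℕ × ℕ → ℂ), 1 ≤ X → 1 ≤ T →
    ∫ t in Icc 0 T, ‖∑ p ∈ FR X, B p * cexp (I * ((t * lam p : ℝ) : ℂ))‖ ^ 2 ≤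
      C * ((T + X) * (1 + Real.log X)) * ∑ p ∈ FR X, ‖B p‖ ^ 2 := by
  obtain ⟨-, C, hC, hrow⟩ := Pool.Agent.Y379.GP.t_SP
  refine ⟨8 * C, by positivity, ?_⟩
  intro X T B hX hT
  have hT0 : 0 < T := by linarith
  set E : ℕ × ℕ → ℝ → ℂ := fun p t => cexp (I * ((t * lam p : ℝ) : ℂ)) with hE
  have hEc : ∀ p, Continuous (E p) := by
    intro p
    simp only [hE]
    fun_prop
  have e1 : ∀ t : ℝ, ((‖∑ p ∈ FR X, B p * E p t‖ ^ 2 : ℝ) : ℂ) =
      ∑ p ∈ FR X, ∑ q ∈ FR X, (B p * (starRingEnd ℂ) (B q)) * (E p t * (starRingEnd ℂ) (E q t)) := by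
    intro t
    push_cast
    rw [← Complex.mul_conj', map_sum, Finset.sum_mul_sum]
    refine Finset.sum_congr rfl fun p _ => Finset.sum_congr rfl fun q _ => ?_
    rw [map_mul]
    ring
  have hint : ∀ p q, Integrable (fun t : ℝ => (B p * (starRingEnd ℂ) (B q)) * (E p t * (starRingEnd ℂ) (E q t)))
      (volume.restrict (Icc 0 T)) := by
    intro p q
    apply Integrable.const_mul
    exact ((hEc p).mul (Complex.continuous_conj.comp (hEc q))).continuousOn.integrableOn_compact isCompact_Icc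
  have e2 : ((∫ t in Icc 0 T, ‖∑ p ∈ FR X, B p * E p t‖ ^ 2 : ℝ) : ℂ) =
      ∑ p ∈ FR X, ∑ q ∈ FR X, (B p * (starRingEnd ℂ) (B q)) * ∫ t in Icc 0 T, (E p t * (starRingEnd ℂ) (E q t)) := by
    rw [← integral_complex_ofReal]
    simp_rw [e1]
    rw [integral_finsetSum _ (fun p _ => integrable_finsetSum _ (fun q _ => hint p q))]
    refine Finset.sum_congr rfl fun p _ => ?_
    rw [integral_finsetSum _ (fun q _ => hint p q)]
    refine Finset.sum_congr rfl fun q _ => ?_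
    rw [integral_const_mul]
  have e3 : ∀ p q, ‖∫ t in Icc 0 T, (E p t * (starRingEnd ℂ) (E q t))‖ ≤ 8 * mk T (lam p - lam q) := by
    intro p q
    have h1 := Pool.Agent.Y125.GP.one_coord (a := 0) (T := T) le_rfl hT0.le hT0 (A := fun _ => (1 : ℂ))
      (A' := fun _ => 0) (B := fun _ => (1 : ℂ)) (B' := fun _ => 0) (w := 1) (v := 1) (l := lam p) (m := lam q)
      (fun x _ => hasDerivAt_const x (1 : ℂ)) continuousOn_const (fun x _ => by simp) (by simp)
      (fun x _ => hasDerivAt_const x (1 : ℂ)) continuousOn_const (fun x _ => by simp) (by simp)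
    simpa [hE] using h1
  have hmk : ∀ x, 0 ≤ mk T x := Pool.Agent.Y125.GP.mk_nonneg hT0.le
  have h0 : 0 ≤ ∫ t in Icc 0 T, ‖∑ p ∈ FR X, B p * E p t‖ ^ 2 := integral_nonneg fun c => by positivity
  have hb : ∀ p ∈ FR X, ∑ q ∈ FR X, 8 * mk T (lam p - lam q) ≤ 8 * C * ((T + X) * (1 + Real.log X)) := by
    intro p _
    rw [← Finset.mul_sum]
    have := hrow X T (lam p) hX hT
    have h2 : ∑ q ∈ FR X, mk T (lam p - lam q) = ∑ q ∈ FR X, mk T (lam q - lam p) :=
      Finset.sum_congr rfl fun q _ => Pool.Agent.Y125.GP.mk_comm T _ _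
    rw [h2]
    linarith
  calc ∫ t in Icc 0 T, ‖∑ p ∈ FR X, B p * E p t‖ ^ 2
      = ‖((∫ t in Icc 0 T, ‖∑ p ∈ FR X, B p * E p t‖ ^ 2 : ℝ) : ℂ)‖ := by
        rw [Complex.norm_real, Real.norm_of_nonneg h0]
    _ ≤ ∑ p ∈ FR X, ∑ q ∈ FR X, ‖B p‖ * ‖B q‖ * (8 * mk T (lam p - lam q)) := by
        rw [e2]
        refine (norm_sum_le _ _).trans (Finset.sum_le_sum fun p _ => ?_)
        refine (norm_sum_le _ _).trans (Finset.sum_le_sum fun q _ => ?_)
        rw [norm_mul, norm_mul, RCLike.norm_conj]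
        exact mul_le_mul_of_nonneg_left (e3 p q) (by positivity)
    _ ≤ ∑ p ∈ FR X, ∑ q ∈ FR X, ((‖B p‖ ^ 2 * (8 * mk T (lam p - lam q))) / 2 +
          (‖B q‖ ^ 2 * (8 * mk T (lam p - lam q))) / 2) := by
        refine Finset.sum_le_sum fun p _ => Finset.sum_le_sum fun q _ => ?_
        have h3 : 0 ≤ 8 * mk T (lam p - lam q) := mul_nonneg (by norm_num) (hmk _)
        nlinarith [mul_nonneg h3 (sq_nonneg (‖B p‖ - ‖B q‖))]
    _ = ∑ p ∈ FR X, ‖B p‖ ^ 2 * ∑ q ∈ FR X, 8 * mk T (lam p - lam q) := by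
        simp_rw [Finset.sum_add_distrib]
        have h4 : ∑ p ∈ FR X, ∑ q ∈ FR X, (‖B q‖ ^ 2 * (8 * mk T (lam p - lam q))) / 2 =
            ∑ p ∈ FR X, ∑ q ∈ FR X, (‖B p‖ ^ 2 * (8 * mk T (lam p - lam q))) / 2 := by
          rw [Finset.sum_comm]
          refine Finset.sum_congr rfl fun p _ => Finset.sum_congr rfl fun q _ => ?_
          rw [Pool.Agent.Y125.GP.mk_comm]
        rw [h4, ← Finset.sum_add_distrib]
        refine Finset.sum_congr rfl fun p _ => ?_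
        rw [← Finset.sum_add_distrib, Finset.mul_sum]
        exact Finset.sum_congr rfl fun q _ => by ring
    _ ≤ ∑ p ∈ FR X, ‖B p‖ ^ 2 * (8 * C * ((T + X) * (1 + Real.log X))) :=
        Finset.sum_le_sum fun p hp => mul_le_mul_of_nonneg_left (hb p hp) (by positivity)
    _ = 8 * C * ((T + X) * (1 + Real.log X)) * ∑ p ∈ FR X, ‖B p‖ ^ 2 := by
        rw [← Finset.sum_mul, mul_comm]

end Pool.Agent.Y780.SX
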