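import Pool.Agent.Y780.SX.Blk0
import Pool.Agent.H510R2.Div

/-! Project SX (helper969), job BLK, part 2: powers of exponential sums over products of fractions. -/

set_option autoImplicit false

open MeasureTheory Set
open Complex hiding mk

namespace Pool.Agent.Y780.SX

open Pool.Agent.Y969.GP

section comb

variable {n M : ℕ}

/-- product of the denominators -/
def dn (Q : Fin M → Fin n → ℕ × ℕ) : ℕ := ∏ i, ∏ j, (Q i j).1

/-- product of the numerators -/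
def nu (Q : Fin M → Fin n → ℕ × ℕ) : ℕ := ∏ i, ∏ j, (Q i j).2

/-- the reduced fraction -/
def red (Q : Fin M → Fin n → ℕ × ℕ) : ℕ × ℕ :=
  (dn Q / Nat.gcd (dn Q) (nu Q), nu Q / Nat.gcd (dn Q) (nu Q))

/-- positive entries -/
def Pos (Q : Fin M → Fin n → ℕ × ℕ) : Prop := ∀ i j, 1 ≤ (Q i j).1 ∧ 1 ≤ (Q i j).2

theorem dn_pos {Q : Fin M → Fin n → ℕ × ℕ} (h : Pos Q) : 0 < dn Q :=
  Finset.prod_pos fun i _ => Finset.prod_pos fun j _ => (h i j).1

theorem nu_pos {Q : Fin M → Fin n → ℕ × ℕ} (h : Pos Q) : 0 < nu Q :=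
  Finset.prod_pos fun i _ => Finset.prod_pos fun j _ => (h i j).2

theorem lam_red {Q : Fin M → Fin n → ℕ × ℕ} (h : Pos Q) : lam (red Q) = ∑ i, ∑ j, lam (Q i j) := by
  have hd := dn_pos h
  have hn := nu_pos h
  have hg : 0 < Nat.gcd (dn Q) (nu Q) := Nat.gcd_pos_of_pos_left _ hd
  have hgr : ((Nat.gcd (dn Q) (nu Q) : ℕ) : ℝ) ≠ 0 := by exact_mod_cast hg.ne'
  have hdr : ((dn Q : ℕ) : ℝ) ≠ 0 := by exact_mod_cast hd.ne'
  have hnr : ((nu Q : ℕ) : ℝ) ≠ 0 := by exact_mod_cast hn.ne'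
  have e1 : lam (red Q) = Real.log (nu Q) - Real.log (dn Q) := by
    unfold lam red
    simp only
    rw [Nat.cast_div (Nat.gcd_dvd_right _ _) hgr, Nat.cast_div (Nat.gcd_dvd_left _ _) hgr,
      Real.log_div hnr hgr, Real.log_div hdr hgr]
    ring
  have e2 : Real.log (nu Q) = ∑ i, ∑ j, Real.log ((Q i j).2 : ℝ) := by
    unfold nu
    push_cast
    rw [Real.log_prod (fun i _ => Finset.prod_ne_zero_iff.2 fun j _ => by
      exact_mod_cast Nat.one_le_iff_ne_zero.1 (h i j).2)]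
    refine Finset.sum_congr rfl fun i _ => ?_
    rw [Real.log_prod (fun j _ => by exact_mod_cast Nat.one_le_iff_ne_zero.1 (h i j).2)]
  have e3 : Real.log (dn Q) = ∑ i, ∑ j, Real.log ((Q i j).1 : ℝ) := by
    unfold dn
    push_cast
    rw [Real.log_prod (fun i _ => Finset.prod_ne_zero_iff.2 fun j _ => by
      exact_mod_cast Nat.one_le_iff_ne_zero.1 (h i j).1)]
    refine Finset.sum_congr rfl fun i _ => ?_
    rw [Real.log_prod (fun j _ => by exact_mod_cast Nat.one_le_iff_ne_zero.1 (h i j).1)]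
  rw [e1, e2, e3]
  unfold lam
  rw [← Finset.sum_sub_distrib]
  exact Finset.sum_congr rfl fun i _ => by rw [Finset.sum_sub_distrib]

theorem red_mem {Q : Fin M → Fin n → ℕ × ℕ} (h : Pos Q) {X : ℕ} (hX : dn Q * nu Q ≤ X) : red Q ∈ FR X := by
  have hd := dn_pos h
  have hn := nu_pos h
  have hg : 0 < Nat.gcd (dn Q) (nu Q) := Nat.gcd_pos_of_pos_left _ hd
  have h1 : 0 < dn Q / Nat.gcd (dn Q) (nu Q) := Nat.div_pos (Nat.le_of_dvd hd (Nat.gcd_dvd_left _ _)) hg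
  have h2 : 0 < nu Q / Nat.gcd (dn Q) (nu Q) := Nat.div_pos (Nat.le_of_dvd hn (Nat.gcd_dvd_right _ _)) hg
  have h3 : dn Q / Nat.gcd (dn Q) (nu Q) ≤ dn Q := Nat.div_le_self _ _
  have h4 : nu Q / Nat.gcd (dn Q) (nu Q) ≤ nu Q := Nat.div_le_self _ _
  have h5 : dn Q ≤ X := (Nat.le_mul_of_pos_right _ hn).trans hX
  have h6 : nu Q ≤ X := (Nat.le_mul_of_pos_left _ hd).trans hX
  unfold FR PS red
  rw [Finset.mem_filter, Finset.mem_filter, Finset.mem_product, Finset.mem_Icc, Finset.mem_Icc]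
  refine ⟨⟨⟨⟨h1, h3.trans h5⟩, h2, h4.trans h6⟩, (Nat.mul_le_mul h3 h4).trans hX⟩, ?_⟩
  exact Nat.coprime_div_gcd_div_gcd hg

theorem red_eq {Q Q' : Fin M → Fin n → ℕ × ℕ} (h : red Q = red Q') : dn Q * nu Q' = dn Q' * nu Q := by
  unfold red at h
  rw [Prod.mk.injEq] at h
  obtain ⟨h1, h2⟩ := h
  have a1 := Nat.div_mul_cancel (Nat.gcd_dvd_left (dn Q) (nu Q))
  have a2 := Nat.div_mul_cancel (Nat.gcd_dvd_right (dn Q) (nu Q))
  have b1 := Nat.div_mul_cancel (Nat.gcd_dvd_left (dn Q') (nu Q'))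
  have b2 := Nat.div_mul_cancel (Nat.gcd_dvd_right (dn Q') (nu Q'))
  calc dn Q * nu Q' = (dn Q / Nat.gcd (dn Q) (nu Q) * Nat.gcd (dn Q) (nu Q)) *
        (nu Q' / Nat.gcd (dn Q') (nu Q') * Nat.gcd (dn Q') (nu Q')) := by rw [a1, b2]
    _ = (dn Q' / Nat.gcd (dn Q') (nu Q') * Nat.gcd (dn Q') (nu Q')) *
        (nu Q / Nat.gcd (dn Q) (nu Q) * Nat.gcd (dn Q) (nu Q)) := by
        rw [h1, ← h2]
        ring
    _ = dn Q' * nu Q := by rw [b1, a2]

open Classical in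
/-- the number of pairs of tuples with the same fraction -/
theorem count {X D : ℕ} (𝒬 : Finset (Fin M → Fin n → ℕ × ℕ)) (hpos : ∀ Q ∈ 𝒬, Pos Q)
    (hX : ∀ Q ∈ 𝒬, dn Q * nu Q ≤ X) (hD : ∀ P : ℕ, 1 ≤ P → P ≤ X → P.divisors.card ≤ D) :
    ((𝒬 ×ˢ 𝒬).filter fun z => red z.1 = red z.2).card ≤ X * (((D * D) ^ n) ^ M * ((D * D) ^ n) ^ M) := by
  let DP : ℕ → Finset (Fin M → Fin n → ℕ × ℕ) := fun P =>
    Fintype.piFinset fun _ => Fintype.piFinset fun _ => P.divisors ×ˢ P.divisors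
  have hsub : ((𝒬 ×ˢ 𝒬).filter fun z => red z.1 = red z.2) ⊆
      (Finset.Icc 1 X).biUnion fun P => DP P ×ˢ DP P := by
    intro z hz
    rw [Finset.mem_filter, Finset.mem_product] at hz
    obtain ⟨⟨h1, h2⟩, h3⟩ := hz
    have p1 := hpos _ h1
    have p2 := hpos _ h2
    have h4 := red_eq h3
    set P := dn z.1 * nu z.2 with hP
    have hP0 : 0 < P := Nat.mul_pos (dn_pos p1) (nu_pos p2)
    have hPX : P ≤ X := by
      have h5 : P * P ≤ X * X := by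
        calc P * P = (dn z.1 * nu z.2) * (dn z.2 * nu z.1) := by rw [← h4]
          _ = (dn z.1 * nu z.1) * (dn z.2 * nu z.2) := by ring
          _ ≤ X * X := Nat.mul_le_mul (hX _ h1) (hX _ h2)
      exact Nat.mul_self_le_mul_self_iff.1 h5
    rw [Finset.mem_biUnion]
    refine ⟨P, Finset.mem_Icc.2 ⟨hP0, hPX⟩, ?_⟩
    have d1 : dn z.1 ∣ P := dvd_mul_right _ _
    have d2 : nu z.2 ∣ P := dvd_mul_left _ _
    have d3 : dn z.2 ∣ P := by rw [h4]; exact dvd_mul_right _ _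
    have d4 : nu z.1 ∣ P := by rw [h4]; exact dvd_mul_left _ _
    have e1 : ∀ (Q : Fin M → Fin n → ℕ × ℕ) i j, (Q i j).1 ∣ dn Q := fun Q i j =>
      (Finset.dvd_prod_of_mem (fun j => (Q i j).1) (Finset.mem_univ j)).trans
        (Finset.dvd_prod_of_mem (fun i => ∏ j, (Q i j).1) (Finset.mem_univ i))
    have e2 : ∀ (Q : Fin M → Fin n → ℕ × ℕ) i j, (Q i j).2 ∣ nu Q := fun Q i j =>
      (Finset.dvd_prod_of_mem (fun j => (Q i j).2) (Finset.mem_univ j)).trans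
        (Finset.dvd_prod_of_mem (fun i => ∏ j, (Q i j).2) (Finset.mem_univ i))
    rw [Finset.mem_product]
    constructor
    · simp only [DP, Fintype.mem_piFinset, Finset.mem_product, Nat.mem_divisors]
      exact fun i j => ⟨⟨(e1 _ i j).trans d1, hP0.ne'⟩, (e2 _ i j).trans d4, hP0.ne'⟩
    · simp only [DP, Fintype.mem_piFinset, Finset.mem_product, Nat.mem_divisors]
      exact fun i j => ⟨⟨(e1 _ i j).trans d3, hP0.ne'⟩, (e2 _ i j).trans d2, hP0.ne'⟩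
  refine (Finset.card_le_card hsub).trans (Finset.card_biUnion_le.trans ?_)
  have hc : ∀ P, (DP P).card = ((P.divisors.card * P.divisors.card) ^ n) ^ M := by
    intro P
    simp only [DP, Fintype.card_piFinset, Finset.card_product, Finset.prod_const, Finset.card_univ,
      Fintype.card_fin]
  calc ∑ P ∈ Finset.Icc 1 X, (DP P ×ˢ DP P).card
      ≤ ∑ P ∈ Finset.Icc 1 X, (((D * D) ^ n) ^ M * ((D * D) ^ n) ^ M) := by
        refine Finset.sum_le_sum fun P hP => ?_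
        rw [Finset.mem_Icc] at hP
        rw [Finset.card_product, hc]
        have h1 := hD P hP.1 hP.2
        gcongr
    _ = X * (((D * D) ^ n) ^ M * ((D * D) ^ n) ^ M) := by
        rw [Finset.sum_const, Nat.card_Icc, smul_eq_mul, Nat.add_sub_cancel]

open Classical in
/-- expansion of a power -/
theorem expand (S : Finset (Fin n → ℕ × ℕ)) (hpos : ∀ q ∈ S, ∀ j, 1 ≤ (q j).1 ∧ 1 ≤ (q j).2) (X : ℕ)
    (hX : ∀ Q ∈ Fintype.piFinset (fun _ : Fin M => S), dn Q * nu Q ≤ X)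
    (c : (Fin n → ℕ × ℕ) → ℂ) (t : ℝ) :
    (∑ q ∈ S, c q * cexp (I * ((t * ∑ j, lam (q j) : ℝ) : ℂ))) ^ M =
      ∑ p ∈ FR X, (∑ Q ∈ (Fintype.piFinset (fun _ : Fin M => S)).filter (fun Q => red Q = p), ∏ i, c (Q i)) *
        cexp (I * ((t * lam p : ℝ) : ℂ)) := by
  have h1 : (∑ q ∈ S, c q * cexp (I * ((t * ∑ j, lam (q j) : ℝ) : ℂ))) ^ M =
      ∑ Q ∈ Fintype.piFinset (fun _ : Fin M => S),
        ∏ i, (c (Q i) * cexp (I * ((t * ∑ j, lam (Q i j) : ℝ) : ℂ))) := by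
    rw [← Finset.prod_univ_sum (fun _ : Fin M => S)
      (fun _ q => c q * cexp (I * ((t * ∑ j, lam (q j) : ℝ) : ℂ)))]
    rw [Finset.prod_const, Finset.card_univ, Fintype.card_fin]
  have h2 : ∀ Q ∈ Fintype.piFinset (fun _ : Fin M => S),
      ∏ i, (c (Q i) * cexp (I * ((t * ∑ j, lam (Q i j) : ℝ) : ℂ))) =
      (∏ i, c (Q i)) * cexp (I * ((t * lam (red Q) : ℝ) : ℂ)) := by
    intro Q hQ
    have hp : Pos Q := fun i j => hpos _ ((Fintype.mem_piFinset.1 hQ) i) j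
    rw [Finset.prod_mul_distrib, ← Complex.exp_sum, lam_red hp, ← Finset.mul_sum]
    congr 3
    push_cast
    rw [Finset.mul_sum]
  have hmaps : ∀ Q ∈ Fintype.piFinset (fun _ : Fin M => S), red Q ∈ FR X := by
    intro Q hQ
    have hp : Pos Q := fun i j => hpos _ ((Fintype.mem_piFinset.1 hQ) i) j
    exact red_mem hp (hX Q hQ)
  rw [h1, Finset.sum_congr rfl h2, ← Finset.sum_fiberwise_of_maps_to hmaps]
  refine Finset.sum_congr rfl fun p _ => ?_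
  rw [Finset.sum_mul]
  refine Finset.sum_congr rfl fun Q hQ => ?_
  rw [(Finset.mem_filter.1 hQ).2]

open Classical in
theorem coeff_sq (S : Finset (Fin n → ℕ × ℕ)) (hpos : ∀ q ∈ S, ∀ j, 1 ≤ (q j).1 ∧ 1 ≤ (q j).2) (X D : ℕ)
    (hX : ∀ Q ∈ Fintype.piFinset (fun _ : Fin M => S), dn Q * nu Q ≤ X)
    (hD : ∀ P : ℕ, 1 ≤ P → P ≤ X → P.divisors.card ≤ D)
    (c : (Fin n → ℕ × ℕ) → ℂ) (J : ℝ) (hJ : 0 ≤ J) (hc : ∀ q ∈ S, ‖c q‖ ≤ J) :
    ∑ p ∈ FR X, ‖∑ Q ∈ (Fintype.piFinset (fun _ : Fin M => S)).filter (fun Q => red Q = p), ∏ i, c (Q i)‖ ^ 2 ≤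
      J ^ (2 * M) * ((X * (((D * D) ^ n) ^ M * ((D * D) ^ n) ^ M) : ℕ) : ℝ) := by
  set 𝒬 := Fintype.piFinset (fun _ : Fin M => S) with h𝒬
  have hp : ∀ Q ∈ 𝒬, Pos Q := fun Q hQ i j => hpos _ ((Fintype.mem_piFinset.1 hQ) i) j
  have h1 : ∀ p, ‖∑ Q ∈ 𝒬.filter (fun Q => red Q = p), ∏ i, c (Q i)‖ ≤
      J ^ M * ((𝒬.filter (fun Q => red Q = p)).card : ℝ) := by
    intro p
    refine (norm_sum_le _ _).trans ?_
    have h2 : ∀ Q ∈ 𝒬.filter (fun Q => red Q = p), ‖∏ i, c (Q i)‖ ≤ J ^ M := by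
      intro Q hQ
      have hQ' := (Finset.mem_filter.1 hQ).1
      rw [norm_prod]
      calc ∏ i, ‖c (Q i)‖ ≤ ∏ _i : Fin M, J :=
            Finset.prod_le_prod (fun i _ => norm_nonneg _) fun i _ => hc _ ((Fintype.mem_piFinset.1 hQ') i)
        _ = J ^ M := by rw [Finset.prod_const, Finset.card_univ, Fintype.card_fin]
    refine (Finset.sum_le_sum h2).trans ?_
    rw [Finset.sum_const, nsmul_eq_mul, mul_comm]
  have h3 : ∑ p ∈ FR X, (((𝒬.filter (fun Q => red Q = p)).card : ℝ)) ^ 2 =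
      (((𝒬 ×ˢ 𝒬).filter fun z => red z.1 = red z.2).card : ℝ) := by
    have hmaps : ∀ z ∈ (𝒬 ×ˢ 𝒬).filter (fun z => red z.1 = red z.2), red z.1 ∈ FR X := by
      intro z hz
      have := (Finset.mem_product.1 (Finset.mem_filter.1 hz).1).1
      exact red_mem (hp _ this) (hX _ this)
    rw [Finset.card_eq_sum_card_fiberwise hmaps]
    push_cast
    refine Finset.sum_congr rfl fun p _ => ?_
    have : ((𝒬 ×ˢ 𝒬).filter (fun z => red z.1 = red z.2)).filter (fun z => red z.1 = p) =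
        (𝒬.filter (fun Q => red Q = p)) ×ˢ (𝒬.filter (fun Q => red Q = p)) := by
      ext z
      simp only [Finset.mem_filter, Finset.mem_product]
      constructor
      · rintro ⟨⟨⟨a, b⟩, c⟩, d⟩
        exact ⟨⟨a, d⟩, b, c ▸ d⟩
      · rintro ⟨⟨a, b⟩, c, d⟩
        exact ⟨⟨⟨a, c⟩, b.trans d.symm⟩, b⟩
    rw [this, Finset.card_product]
    push_cast
    ring
  calc ∑ p ∈ FR X, ‖∑ Q ∈ 𝒬.filter (fun Q => red Q = p), ∏ i, c (Q i)‖ ^ 2
      ≤ ∑ p ∈ FR X, (J ^ M * ((𝒬.filter (fun Q => red Q = p)).card : ℝ)) ^ 2 :=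
        Finset.sum_le_sum fun p _ => pow_le_pow_left₀ (norm_nonneg _) (h1 p) 2
    _ = J ^ (2 * M) * (((𝒬 ×ˢ 𝒬).filter fun z => red z.1 = red z.2).card : ℝ) := by
        rw [← h3, Finset.mul_sum]
        refine Finset.sum_congr rfl fun p _ => ?_
        rw [mul_pow, ← pow_mul, mul_comm M 2]
    _ ≤ J ^ (2 * M) * ((X * (((D * D) ^ n) ^ M * ((D * D) ^ n) ^ M) : ℕ) : ℝ) := by
        refine mul_le_mul_of_nonneg_left ?_ (by positivity)
        exact_mod_cast count 𝒬 hp hX hD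

end comb

end Pool.Agent.Y780.SX
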